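import Mathlib

set_option autoImplicit false

namespace Pool.Agent.H48

open Set Filter Topology

/-! Elements of the restricted wreath product of a group with the finitary symmetric group. -/

/-- Restricted wreath product of `Q` with the group of finitary permutations of `ℕ`. -/
@[ext] structure Wr (Q : Type) [Group Q] where
  f : ℕ → Q
  p : Equiv.Perm ℕ
  hf : {y | f y ≠ 1}.Finite
  hp : {y | p y ≠ y}.Finite

namespace Wr

variable {Q : Type} [Group Q]

instance : Mul (Wr Q) where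
  mul a b :=
    { f := fun y => a.f y * b.f (a.p.symm y)
      p := a.p * b.p
      hf := by
        refine (a.hf.union (b.hf.image a.p)).subset ?_
        intro y hy
        by_cases h : a.f y = 1
        · right
          refine ⟨a.p.symm y, ?_, by simp⟩
          simpa [h] using hy
        · left; exact h
      hp := by
        refine (a.hp.union b.hp).subset ?_
        intro y hy
        by_cases h : b.p y = y
        · left
          simpa [h] using hy
        · right; exact h }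

instance : One (Wr Q) where
  one := { f := fun _ => 1, p := 1, hf := by simp, hp := by simp }

instance : Inv (Wr Q) where
  inv a :=
    { f := fun y => (a.f (a.p y))⁻¹
      p := a.p.symm
      hf := by
        refine (a.hf.image a.p.symm).subset ?_
        intro y hy
        refine ⟨a.p y, ?_, by simp⟩
        simpa using hy
      hp := by
        refine a.hp.subset ?_
        intro y hy h
        apply hy
        rw [Equiv.symm_apply_eq]
        exact h.symm }

@[simp] theorem mul_f (a b : Wr Q) (y : ℕ) : (a * b).f y = a.f y * b.f (a.p.symm y) := rfl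
@[simp] theorem mul_p (a b : Wr Q) : (a * b).p = a.p * b.p := rfl
@[simp] theorem one_f (y : ℕ) : (1 : Wr Q).f y = 1 := rfl
@[simp] theorem one_p : (1 : Wr Q).p = 1 := rfl
@[simp] theorem inv_f (a : Wr Q) (y : ℕ) : (a⁻¹).f y = (a.f (a.p y))⁻¹ := rfl
@[simp] theorem inv_p (a : Wr Q) : (a⁻¹).p = a.p.symm := rfl

theorem ext' {a b : Wr Q} (h1 : ∀ y, a.f y = b.f y) (h2 : ∀ y, a.p y = b.p y) : a = b :=
  Wr.ext (funext h1) (Equiv.ext h2)

instance : Group (Wr Q) :=
  Group.ofLeftAxioms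
    (by
      intro a b c
      refine ext' ?_ ?_
      · intro y
        simp [mul_assoc, Equiv.Perm.mul_def]
      · intro y
        simp)
    (by
      intro a
      refine ext' ?_ ?_
      · intro y
        simp [Equiv.Perm.one_def]
      · intro y
        simp)
    (by
      intro a
      refine ext' ?_ ?_
      · intro y
        simp
      · intro y
        simp)

/-- The element with value `h` at the coordinate `y`. -/
def sg (y : ℕ) (h : Q) : Wr Q where
  f := fun z => if z = y then h else 1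
  p := 1
  hf := by
    refine (Set.finite_singleton y).subset ?_
    intro z hz
    by_contra h'
    apply hz
    simp only [Set.mem_singleton_iff] at h'
    simp [h']
  hp := by simp

@[simp] theorem sg_f (y : ℕ) (h : Q) (z : ℕ) : (sg y h).f z = if z = y then h else 1 := rfl
@[simp] theorem sg_p (y : ℕ) (h : Q) : (sg y h).p = 1 := rfl

/-- A finitary permutation as an element of the wreath product. -/
def pm (π : Equiv.Perm ℕ) (hπ : {y | π y ≠ y}.Finite) : Wr Q where
  f := fun _ => 1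
  p := π
  hf := by simp
  hp := hπ

@[simp] theorem pm_f (π : Equiv.Perm ℕ) (hπ : {y | π y ≠ y}.Finite) (z : ℕ) :
    (pm (Q := Q) π hπ).f z = 1 := rfl
@[simp] theorem pm_p (π : Equiv.Perm ℕ) (hπ : {y | π y ≠ y}.Finite) :
    (pm (Q := Q) π hπ).p = π := rfl

theorem swap_fin (y z : ℕ) : {x | Equiv.swap y z x ≠ x}.Finite := by
  refine ((Set.finite_singleton y).union (Set.finite_singleton z)).subset ?_
  intro x hx
  by_contra h
  apply hx
  simp only [Set.mem_union, Set.mem_singleton_iff, not_or] at h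
  exact Equiv.swap_apply_of_ne_of_ne h.1 h.2

/-- The base subgroups. -/
def W (H : Subgroup Q) (F : Finset ℕ) : Subgroup (Wr Q) where
  carrier := {g | (∀ y, g.f y ∈ H) ∧ ∀ y ∈ F, g.f y = 1 ∧ g.p y = y}
  mul_mem' := by
    rintro a b ⟨ha, ha'⟩ ⟨hb, hb'⟩
    refine ⟨fun y => H.mul_mem (ha y) (hb _), ?_⟩
    intro y hy
    have h1 : a.p.symm y = y := by
      rw [Equiv.symm_apply_eq]; exact (ha' y hy).2.symm
    refine ⟨?_, ?_⟩
    · simp [h1, (ha' y hy).1, (hb' y hy).1]
    · simp [(ha' y hy).2, (hb' y hy).2]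
  one_mem' := by
    refine ⟨fun y => H.one_mem, fun y _ => by simp⟩
  inv_mem' := by
    rintro a ⟨ha, ha'⟩
    refine ⟨fun y => H.inv_mem (ha _), ?_⟩
    intro y hy
    have h1 : a.p.symm y = y := by
      rw [Equiv.symm_apply_eq]; exact (ha' y hy).2.symm
    refine ⟨?_, ?_⟩
    · simp [(ha' y hy).1, (ha' y hy).2]
    · simp [h1]

theorem mem_W {H : Subgroup Q} {F : Finset ℕ} {g : Wr Q} :
    g ∈ W H F ↔ (∀ y, g.f y ∈ H) ∧ ∀ y ∈ F, g.f y = 1 ∧ g.p y = y := Iff.rfl

theorem W_mono {H H' : Subgroup Q} {F F' : Finset ℕ} (h : H' ≤ H) (hF : F ⊆ F') :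
    W H' F' ≤ W H F := by
  rintro g ⟨h1, h2⟩
  exact ⟨fun y => h (h1 y), fun y hy => h2 y (hF hy)⟩

theorem W_conj (H : Subgroup Q) (F : Finset ℕ) (g : Wr Q) :
    ∃ F' : Finset ℕ, ∀ x ∈ W H F', g * x * g⁻¹ ∈ W H F := by
  classical
  refine ⟨(F ∪ g.hf.toFinset).image g.p.symm, ?_⟩
  rintro x ⟨hx, hx'⟩
  have key : ∀ y, (y ∈ F ∨ g.f y ≠ 1) → x.f (g.p.symm y) = 1 ∧ x.p (g.p.symm y) = g.p.symm y := by
    intro y hy
    apply hx'
    rw [Finset.mem_image]
    refine ⟨y, ?_, rfl⟩
    rw [Finset.mem_union]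
    rcases hy with hy | hy
    · left; exact hy
    · right; simpa using hy
  have key2 : ∀ y, (y ∈ F ∨ g.f y ≠ 1) → (g * x * g⁻¹).f y = 1 ∧ (g * x * g⁻¹).p y = y := by
    intro y hy
    obtain ⟨h1, h2⟩ := key y hy
    have h3 : x.p.symm (g.p.symm y) = g.p.symm y := by
      rw [Equiv.symm_apply_eq]; exact h2.symm
    refine ⟨?_, ?_⟩
    · simp [h1, h3, Equiv.Perm.mul_def]
    · simp [h2]
  refine ⟨?_, fun y hy => key2 y (Or.inl hy)⟩
  intro y
  by_cases hy : y ∈ F ∨ g.f y ≠ 1
  · rw [(key2 y hy).1]; exact H.one_mem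
  · push Not at hy
    have h4 : g.f (g.p (x.p.symm (g.p.symm y))) = 1 := by
      by_contra hne
      have h5 := (key _ (Or.inr hne)).2
      simp only [Equiv.symm_apply_apply, Equiv.apply_symm_apply] at h5
      have h6 : y = g.p (x.p.symm (g.p.symm y)) := by
        rw [← h5]; simp
      apply hne
      rw [← h6]
      exact hy.2
    have h7 : (g * x * g⁻¹).f y = x.f (g.p.symm y) := by
      simp [hy.2, h4, Equiv.Perm.mul_def]
    rw [h7]
    exact hx _

/-- The group filter basis given by the subgroups `W H F`. -/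
@[instance_reducible]
def gb (H : Subgroup Q) : GroupFilterBasis (Wr Q) where
  sets := {U | ∃ F, U = (W H F : Set (Wr Q))}
  nonempty := ⟨_, ∅, rfl⟩
  inter_sets := by
    classical
    rintro _ _ ⟨F, rfl⟩ ⟨F', rfl⟩
    refine ⟨_, ⟨F ∪ F', rfl⟩, ?_⟩
    intro g hg
    exact ⟨W_mono le_rfl Finset.subset_union_left hg, W_mono le_rfl Finset.subset_union_right hg⟩
  one' := by
    rintro _ ⟨F, rfl⟩
    exact (W H F).one_mem
  mul' := by
    rintro _ ⟨F, rfl⟩
    refine ⟨_, ⟨F, rfl⟩, ?_⟩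
    rintro _ ⟨a, ha, b, hb, rfl⟩
    exact (W H F).mul_mem ha hb
  inv' := by
    rintro _ ⟨F, rfl⟩
    refine ⟨_, ⟨F, rfl⟩, ?_⟩
    intro a ha
    exact (W H F).inv_mem ha
  conj' := by
    rintro g _ ⟨F, rfl⟩
    obtain ⟨F', hF'⟩ := W_conj H F g
    exact ⟨_, ⟨F', rfl⟩, fun x hx => hF' x hx⟩

/-- The group topology attached to a subgroup `H` of `Q`. -/
def tau (H : Subgroup Q) : GroupTopology (Wr Q) :=
  { toTopologicalSpace := (gb H).topology
    toIsTopologicalGroup := (gb H).isTopologicalGroup }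

end Wr

/-- Neighbourhood filter of the identity. -/
def N1 {G : Type} [Group G] (c : GroupTopology G) : Filter G := @nhds G c.toTopologicalSpace 1

section gen
variable {G : Type} [Group G]

theorem le_iff (c d : GroupTopology G) : c ≤ d ↔ N1 c ≤ N1 d := by
  constructor
  · intro h
    exact nhds_mono h
  · intro h
    rw [← GroupTopology.toTopologicalSpace_le]
    rw [le_iff_nhds]
    intro x
    have h1 : @nhds G c.toTopologicalSpace x = map (fun y => x * y) (N1 c) := by
      let := c.toTopologicalSpace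
      have := c.toIsTopologicalGroup
      have := map_mul_left_nhds_one x
      exact this.symm
    have h2 : @nhds G d.toTopologicalSpace x = map (fun y => x * y) (N1 d) := by
      let := d.toTopologicalSpace
      have := d.toIsTopologicalGroup
      have := map_mul_left_nhds_one x
      exact this.symm
    rw [h1, h2]
    exact Filter.map_mono h

theorem N1_mul (c : GroupTopology G) (U : Set G) (hU : U ∈ N1 c) :
    ∃ V ∈ N1 c, ∀ a ∈ V, ∀ b ∈ V, a * b ∈ U := by
  let := c.toTopologicalSpace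
  have := c.toIsTopologicalGroup
  obtain ⟨V, hV, h⟩ := exists_nhds_one_split (s := U) hU
  exact ⟨V, hV, h⟩

theorem N1_inv (c : GroupTopology G) (U : Set G) (hU : U ∈ N1 c) :
    ∃ V ∈ N1 c, ∀ a ∈ V, a⁻¹ ∈ U := by
  let := c.toTopologicalSpace
  have := c.toIsTopologicalGroup
  refine ⟨U⁻¹, inv_mem_nhds_one G hU, ?_⟩
  intro a ha
  exact ha

/-- Combined form: products with inverses. -/
theorem N1_split (c : GroupTopology G) (U : Set G) (hU : U ∈ N1 c) :
    ∃ V ∈ N1 c, V ⊆ U ∧ (∀ a ∈ V, a⁻¹ ∈ V) ∧ (∀ a ∈ V, ∀ b ∈ V, a * b ∈ U) := by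
  obtain ⟨V, hV, h⟩ := N1_mul c U hU
  obtain ⟨V', hV', h'⟩ := N1_inv c V hV
  have h1 : (1 : G) ∈ V := by
    let := c.toTopologicalSpace
    exact mem_of_mem_nhds hV
  refine ⟨(V ∩ V') ∩ (V ∩ V')⁻¹, ?_, ?_, ?_, ?_⟩
  · refine inter_mem (inter_mem hV hV') ?_
    obtain ⟨V'', hV'', h''⟩ := N1_inv c (V ∩ V') (inter_mem hV hV')
    exact mem_of_superset hV'' h''
  · rintro a ⟨⟨ha, _⟩, _⟩
    simpa using h a ha 1 h1
  · rintro a ⟨ha, ha'⟩
    refine ⟨ha', ?_⟩
    simpa using ha
  · rintro a ⟨⟨ha, _⟩, _⟩ b ⟨⟨hb, _⟩, _⟩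
    exact h a ha b hb

end gen

namespace Wr
variable {Q : Type} [Group Q]

theorem mem_N1_tau (H : Subgroup Q) (U : Set (Wr Q)) :
    U ∈ N1 (tau H) ↔ ∃ F : Finset ℕ, ∀ g ∈ W H F, g ∈ U := by
  have h := (gb H).nhds_one_hasBasis
  have h2 : U ∈ N1 (tau H) ↔ ∃ V, V ∈ gb H ∧ id V ⊆ U := h.mem_iff
  rw [h2]
  constructor
  · rintro ⟨V, ⟨F, rfl⟩, h3⟩
    exact ⟨F, h3⟩
  · rintro ⟨F, hF⟩
    exact ⟨_, ⟨F, rfl⟩, hF⟩

theorem tau_t2 (H : Subgroup Q) : @T2Space (Wr Q) (tau H).toTopologicalSpace := by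
  let := (tau H).toTopologicalSpace
  refine (GroupFilterBasis.t2Space_iff_sInter_subset (gb H) rfl).2 ?_
  intro g hg
  have h : ∀ F, g ∈ W H F := fun F => hg _ ⟨F, rfl⟩
  rw [Set.mem_singleton_iff]
  refine ext' ?_ ?_
  · intro y
    exact ((h {y}).2 y (by simp)).1
  · intro y
    exact ((h {y}).2 y (by simp)).2

theorem tau_mono {H H' : Subgroup Q} (h : H ≤ H') : tau H ≤ tau H' := by
  rw [le_iff]
  intro U hU
  rw [mem_N1_tau] at hU ⊢
  obtain ⟨F, hF⟩ := hU
  exact ⟨F, fun g hg => hF g (W_mono h (Finset.Subset.refl F) hg)⟩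

theorem exists_notMem (F : Finset ℕ) : ∃ z : ℕ, z ∉ F := Infinite.exists_notMem_finset F

theorem sg_mem_W {H : Subgroup Q} {F : Finset ℕ} {y : ℕ} {h : Q} (hy : y ∉ F) (hh : h ∈ H) :
    sg y h ∈ W H F := by
  refine ⟨?_, ?_⟩
  · intro z
    by_cases hz : z = y
    · simp [hz, hh]
    · simp [hz, H.one_mem]
  · intro z hz
    have : z ≠ y := fun e => hy (e ▸ hz)
    simp [this]

theorem pm_mem_W {H : Subgroup Q} {F : Finset ℕ} {π : Equiv.Perm ℕ} {hπ : {y | π y ≠ y}.Finite}
    (h : ∀ y ∈ F, π y = y) : pm π hπ ∈ W H F := by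
  refine ⟨?_, ?_⟩
  · intro z
    exact H.one_mem
  · intro z hz
    exact ⟨rfl, h z hz⟩

theorem tau_le_iff {H H' : Subgroup Q} : tau H ≤ tau H' ↔ H ≤ H' := by
  refine ⟨?_, tau_mono⟩
  intro h x hx
  rw [le_iff] at h
  have h1 : (W H' ∅ : Set (Wr Q)) ∈ N1 (tau H') := by
    rw [mem_N1_tau]; exact ⟨∅, fun g hg => hg⟩
  have h2 := h h1
  rw [mem_N1_tau] at h2
  obtain ⟨F, hF⟩ := h2
  obtain ⟨z, hz⟩ := exists_notMem F
  have h3 := hF (sg z x) (sg_mem_W hz hx)
  have h4 := h3.1 z
  simpa using h4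

theorem tau_lt_iff {H H' : Subgroup Q} : tau H < tau H' ↔ H < H' := by
  rw [lt_iff_le_not_ge, lt_iff_le_not_ge, tau_le_iff, tau_le_iff]

theorem tau_inj {H H' : Subgroup Q} (h : tau H = tau H') : H = H' :=
  le_antisymm (tau_le_iff.1 h.le) (tau_le_iff.1 h.ge)

theorem tau_ne_bot (H : Subgroup Q) : (tau H).toTopologicalSpace ≠ ⊥ := by
  intro h
  have h1 : ({1} : Set (Wr Q)) ∈ N1 (tau H) := by
    unfold N1
    rw [h]
    let : TopologicalSpace (Wr Q) := ⊥
    have : DiscreteTopology (Wr Q) := ⟨rfl⟩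
    rw [nhds_discrete]
    exact Filter.mem_pure.2 rfl
  rw [mem_N1_tau] at h1
  obtain ⟨F, hF⟩ := h1
  classical
  obtain ⟨z, hz⟩ := exists_notMem F
  obtain ⟨w, hw⟩ := exists_notMem (insert z F)
  rw [Finset.mem_insert, not_or] at hw
  have h2 := hF (pm (Equiv.swap z w) (swap_fin z w)) (pm_mem_W (by
    intro y hy
    refine Equiv.swap_apply_of_ne_of_ne ?_ ?_
    · rintro rfl; exact hz hy
    · rintro rfl; exact hw.2 hy))
  have h3 : (pm (Q := Q) (Equiv.swap z w) (swap_fin z w)).p z = z := by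
    rw [Set.mem_singleton_iff.1 h2]; rfl
  simp at h3
  exact hw.1 h3

end Wr

end Pool.Agent.H48
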