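import Mathlib
import Pool.Agent.H48.WrTop

set_option autoImplicit false

namespace Pool.Agent.H48

open Set Filter Topology

namespace Wr
variable {Q : Type} [Group Q]

/-- Elements `d` whose copies at all but finitely many coordinates lie in `U`. -/
def Dset (U : Set (Wr Q)) : Set Q := {d | ∃ F : Finset ℕ, ∀ z, z ∉ F → sg z d ∈ U}

/-- Strong maximality of `H'` in `H`. -/
def StrongMax (H' H : Subgroup Q) : Prop :=
  ∀ 𝒟 : Set (Set Q),
    (∀ D ∈ 𝒟, ∃ D' ∈ 𝒟, D' ⊆ D ∧ (∀ a ∈ D', a⁻¹ ∈ D') ∧ ∀ a ∈ D', ∀ b ∈ D', a * b ∈ D) →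
    (∀ D ∈ 𝒟, ∀ h ∈ H', h ∈ D) →
    (∀ D ∈ 𝒟, ∃ s ∈ H, s ∉ H' ∧ ∀ h ∈ H', s * h * s⁻¹ * h⁻¹ ∈ D) →
    ∀ D ∈ 𝒟, ∀ h ∈ H, h ∈ D

theorem sg_mul (z : ℕ) (a b : Q) : sg z (a * b) = sg z a * sg z b := by
  refine ext' ?_ ?_
  · intro y
    by_cases h : y = z <;> simp [h, Equiv.Perm.one_def]
  · intro y; simp

theorem sg_inv (z : ℕ) (a : Q) : sg z a⁻¹ = (sg z a)⁻¹ := by
  refine ext' ?_ ?_
  · intro y
    by_cases h : y = z <;> simp [h]
  · intro y; simp [Equiv.Perm.one_def]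

theorem Dset_mono {U V : Set (Wr Q)} (h : U ⊆ V) : Dset U ⊆ Dset V := by
  rintro d ⟨F, hF⟩
  exact ⟨F, fun z hz => h (hF z hz)⟩

theorem Dset_split (c : GroupTopology (Wr Q)) (U : Set (Wr Q)) (hU : U ∈ N1 c) :
    ∃ V ∈ N1 c, Dset V ⊆ Dset U ∧ (∀ a ∈ Dset V, a⁻¹ ∈ Dset V) ∧
      ∀ a ∈ Dset V, ∀ b ∈ Dset V, a * b ∈ Dset U := by
  classical
  obtain ⟨V, hV, h1, h2, h3⟩ := N1_split c U hU
  refine ⟨V, hV, Dset_mono h1, ?_, ?_⟩
  · rintro a ⟨F, hF⟩
    refine ⟨F, fun z hz => ?_⟩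
    rw [sg_inv]
    exact h2 _ (hF z hz)
  · rintro a ⟨F, hF⟩ b ⟨F', hF'⟩
    refine ⟨F ∪ F', fun z hz => ?_⟩
    rw [Finset.mem_union, not_or] at hz
    rw [sg_mul]
    exact h3 _ (hF z hz.1) _ (hF' z hz.2)

theorem comm_calc (g : Wr Q) (hg : g.p = 1) (y z : ℕ) (h : Q) :
    pm (Equiv.swap y z) (swap_fin y z) * (g * sg y h * (g⁻¹ * (sg y h)⁻¹)) *
      (pm (Equiv.swap y z) (swap_fin y z))⁻¹ = sg z (g.f y * h * (g.f y)⁻¹ * h⁻¹) := by
  refine ext' ?_ ?_
  · intro w
    have h1 : ((pm (Equiv.swap y z) (swap_fin y z) * (g * sg y h * (g⁻¹ * (sg y h)⁻¹)) *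
      (pm (Equiv.swap y z) (swap_fin y z))⁻¹ : Wr Q)).f w =
        (g * sg y h * (g⁻¹ * (sg y h)⁻¹)).f (Equiv.swap y z w) := by
      simp [Equiv.Perm.one_def, hg]
    rw [h1]
    by_cases hw : w = z
    · subst hw
      simp [Equiv.Perm.one_def, hg, mul_assoc]
    · have h2 : Equiv.swap y z w ≠ y := by
        intro h3
        apply hw
        rw [Equiv.swap_apply_eq_iff] at h3
        simpa using h3
      have h4 : ((1 : Equiv.Perm ℕ)).symm = 1 := rfl
      simp [hg, h2, hw, h4]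
  · intro w
    simp [hg, Equiv.Perm.one_def]

section cover
variable {H' H : Subgroup Q} {c : GroupTopology (Wr Q)}

theorem nhd_of_le (h1 : tau H' ≤ c) (U : Set (Wr Q)) (hU : U ∈ N1 c) :
    ∃ F : Finset ℕ, ∀ g ∈ W H' F, g ∈ U := by
  rw [le_iff] at h1
  exact (mem_N1_tau H' U).1 (h1 hU)

theorem start (h1 : tau H' ≤ c) (h2 : c ≤ tau H) (h3 : ¬ c ≤ tau H')
    (U : Set (Wr Q)) (hU : U ∈ N1 c) :
    ∃ s ∈ H, s ∉ H' ∧ ∀ h ∈ H', s * h * s⁻¹ * h⁻¹ ∈ Dset U := by
  classical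
  -- a basic set for `tau H'` which is not a neighbourhood for `c`
  obtain ⟨F0, hF0⟩ : ∃ F0 : Finset ℕ, (W H' F0 : Set (Wr Q)) ∉ N1 c := by
    by_contra hcon
    push Not at hcon
    apply h3
    rw [le_iff]
    intro U hU
    rw [mem_N1_tau] at hU
    obtain ⟨F, hF⟩ := hU
    exact mem_of_superset (hcon F) hF
  obtain ⟨U1, hU1, -, hi1, hm1⟩ := N1_split c U hU
  obtain ⟨U2, hU2, hs2, hi2, hm2⟩ := N1_split c U1 hU1
  obtain ⟨U3, hU3, hs3, hi3, hm3⟩ := N1_split c U2 hU2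
  obtain ⟨U4, hU4, hs4, hi4, hm4⟩ := N1_split c U3 hU3
  obtain ⟨U5, hU5, hs5, hi5, hm5⟩ := N1_split c U4 hU4
  obtain ⟨F, hF⟩ := nhd_of_le h1 U5 hU5
  have hW : (W H (F ∪ F0) : Set (Wr Q)) ∈ N1 c := by
    rw [le_iff] at h2
    exact h2 ((mem_N1_tau H _).2 ⟨F ∪ F0, fun g hg => hg⟩)
  obtain ⟨x, ⟨hx5, hxW⟩, hx0⟩ : ∃ x, x ∈ U5 ∩ (W H (F ∪ F0) : Set (Wr Q)) ∧ x ∉ W H' F0 := by
    by_contra hcon
    push Not at hcon
    exact hF0 (mem_of_superset (inter_mem hU5 hW) (fun x hx => hcon x hx))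
  -- the coordinate
  obtain ⟨y, hy⟩ : ∃ y, x.f y ∉ H' := by
    by_contra hcon
    push Not at hcon
    apply hx0
    refine ⟨hcon, fun y hy => ?_⟩
    exact hxW.2 y (Finset.mem_union_right _ hy)
  have hyF : y ∉ F := by
    intro hyF
    apply hy
    rw [(hxW.2 y (Finset.mem_union_left _ hyF)).1]
    exact H'.one_mem
  refine ⟨x.f y, hxW.1 y, hy, ?_⟩
  intro h hh
  refine ⟨F, fun z hz => ?_⟩
  -- the permutation part
  set t : Wr Q := pm x.p x.hp with ht
  have ht5 : t ∈ U5 := by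
    apply hF
    apply pm_mem_W
    intro w hw
    exact (hxW.2 w (Finset.mem_union_left _ hw)).2
  set g : Wr Q := x * t⁻¹ with hg
  have hgp : g.p = 1 := by
    ext w
    simp [hg, ht]
  have hgf : ∀ w, g.f w = x.f w := by
    intro w
    simp [hg, ht]
  have hg4 : g ∈ U4 := hm5 _ hx5 _ (hi5 _ ht5)
  have hd5 : sg y h ∈ U5 := hF _ (sg_mem_W hyF hh)
  have ha : g * sg y h ∈ U3 := hm4 _ hg4 _ (hs5 hd5)
  have hb : g⁻¹ * (sg y h)⁻¹ ∈ U3 := hm4 _ (hi4 _ hg4) _ (hi4 _ (hs5 hd5))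
  have hc : g * sg y h * (g⁻¹ * (sg y h)⁻¹) ∈ U2 := hm3 _ ha _ hb
  have hs : pm (Equiv.swap y z) (swap_fin y z) ∈ U5 := by
    apply hF
    apply pm_mem_W
    intro w hw
    refine Equiv.swap_apply_of_ne_of_ne ?_ ?_
    · rintro rfl; exact hyF hw
    · rintro rfl; exact hz hw
  have hs2' : pm (Equiv.swap y z) (swap_fin y z) ∈ U2 := hs3 (hs4 (hs5 hs))
  have hd : pm (Equiv.swap y z) (swap_fin y z) * (g * sg y h * (g⁻¹ * (sg y h)⁻¹)) ∈ U1 :=
    hm2 _ hs2' _ hc
  have he := hm1 _ hd _ (hi1 _ (hs2 hs2'))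
  rw [comm_calc g hgp] at he
  rw [hgf] at he
  exact he

/-- moving a finite set away -/
theorem exists_move (S F F' : Finset ℕ) (hSF : Disjoint S F) :
    ∃ π : Equiv.Perm ℕ, {y | π y ≠ y}.Finite ∧ (∀ y ∈ F, π y = y) ∧ ∀ y ∈ S, π y ∉ F' := by
  classical
  obtain ⟨N, hN⟩ : ∃ N : ℕ, ∀ y ∈ S ∪ F ∪ F', y < N := by
    refine ⟨(S ∪ F ∪ F').sup id + 1, fun y hy => ?_⟩
    exact Nat.lt_succ_of_le (Finset.le_sup (f := id) hy)
  have hNS : ∀ y ∈ S, y < N := fun y hy => hN y (by simp [hy])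
  have hNF : ∀ y ∈ F, y < N := fun y hy => hN y (by simp [hy])
  have hNF' : ∀ y ∈ F', y < N := fun y hy => hN y (by simp [hy])
  let f : ℕ → ℕ := fun y => if y ∈ S then y + N else if N ≤ y ∧ y - N ∈ S then y - N else y
  have hf : Function.Involutive f := by
    intro y
    by_cases h1 : y ∈ S
    · have h2 : y + N ∉ S := fun h => by have := hNS _ h; omega
      have h3 : f y = y + N := by simp [f, h1]
      rw [h3]
      simp [f, h2, h1]
    · by_cases h2 : N ≤ y ∧ y - N ∈ S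
      · have h3 : f y = y - N := by simp [f, h1, h2]
        rw [h3]
        have h4 : y - N + N = y := Nat.sub_add_cancel h2.1
        simp [f, h2.2, h4]
      · have h3 : f y = y := by
          simp only [f, h1, if_false, if_neg h2]
        rw [h3, h3]
  refine ⟨hf.toPerm, ?_, ?_, ?_⟩
  · refine ((S ∪ S.image (fun y => y + N)).finite_toSet).subset ?_
    intro y hy
    have hy' : f y ≠ y := hy
    by_cases h1 : y ∈ S
    · simp [h1]
    · by_cases h2 : N ≤ y ∧ y - N ∈ S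
      · simp only [Finset.coe_union, Finset.coe_image, Set.mem_union, Finset.mem_coe, h1, false_or,
          Set.mem_image]
        exact ⟨y - N, h2.2, Nat.sub_add_cancel h2.1⟩
      · exfalso
        apply hy'
        simp only [f, h1, if_false, if_neg h2]
  · intro y hy
    have h1 : y ∉ S := fun h => (Finset.disjoint_left.1 hSF h) hy
    have h2 : ¬ (N ≤ y ∧ y - N ∈ S) := by
      rintro ⟨h, -⟩
      have := hNF y hy
      omega
    show f y = y
    simp only [f, h1, if_false, if_neg h2]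
  · intro y hy
    show f y ∉ F'
    have h3 : f y = y + N := by simp [f, hy]
    rw [h3]
    intro h
    have := hNF' _ h
    omega

theorem fin_aux (hD : ∀ U ∈ N1 c, ∀ h ∈ H, h ∈ Dset U) (S : Finset ℕ) :
    ∀ q : Wr Q, q.p = 1 → (∀ y, q.f y ∈ H) → (∀ y, y ∉ S → q.f y = 1) →
    ∀ V ∈ N1 c, ∃ F : Finset ℕ, ∀ (π : Equiv.Perm ℕ) (hπ : {y | π y ≠ y}.Finite),
      (∀ y ∈ S, π y ∉ F) → pm π hπ * q * (pm π hπ)⁻¹ ∈ V := by
  classical
  induction S using Finset.induction_on with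
  | empty =>
    intro q hq1 hq2 hq3 V hV
    refine ⟨∅, fun π hπ _ => ?_⟩
    have h1 : q = 1 := by
      refine ext' (fun y => hq3 y (by simp)) (fun y => ?_)
      rw [hq1]
      rfl
    rw [h1, mul_one, mul_inv_cancel]
    have := c.toTopologicalSpace
    exact @mem_of_mem_nhds _ c.toTopologicalSpace _ _ hV
  | insert y S hyS ih =>
    intro q hq1 hq2 hq3 V hV
    obtain ⟨V', hV', -, -, hm⟩ := N1_split c V hV
    obtain ⟨F1, hF1⟩ := hD V' hV' (q.f y) (hq2 y)
    let q' : Wr Q :=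
      { f := fun z => if z = y then 1 else q.f z
        p := 1
        hf := by
          refine q.hf.subset ?_
          intro z hz
          by_cases h : z = y
          · exfalso; apply hz; simp [h]
          · simpa [h] using hz
        hp := by simp }
    obtain ⟨F2, hF2⟩ := ih q' rfl
      (by
        intro z
        by_cases h : z = y
        · simp [q', h, H.one_mem]
        · simp [q', h, hq2 z])
      (by
        intro z hz
        by_cases h : z = y
        · simp [q', h]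
        · have : z ∉ insert y S := by simp [h, hz]
          simp [q', h, hq3 z this]) V' hV'
    refine ⟨F1 ∪ F2, fun π hπ h => ?_⟩
    have h1 : q = sg y (q.f y) * q' := by
      refine ext' (fun z => ?_) (fun z => ?_)
      · by_cases h : z = y
        · subst h; simp [q', Equiv.Perm.one_def]
        · simp [q', h, Equiv.Perm.one_def]
      · simp [q', hq1]
    have h2 : pm π hπ * q * (pm π hπ)⁻¹ =
        (sg (π y) (q.f y)) * (pm π hπ * q' * (pm π hπ)⁻¹) := by
      refine ext' (fun z => ?_) (fun z => ?_)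
      · by_cases h : z = π y
        · subst h; simp [q', hq1, Equiv.Perm.one_def]
        · have h' : π.symm z ≠ y := by
            intro h''
            apply h
            rw [← h'']; simp
          simp [q', hq1, h, h', Equiv.Perm.one_def]
      · simp [q', hq1]
    rw [h2]
    refine hm _ (hF1 _ ?_) _ (hF2 π hπ ?_)
    · intro h3
      exact h y (Finset.mem_insert_self _ _) (Finset.mem_union_left _ h3)
    · intro z hz h3
      exact h z (Finset.mem_insert_of_mem hz) (Finset.mem_union_right _ h3)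

theorem final (h1 : tau H' ≤ c) (hD : ∀ U ∈ N1 c, ∀ h ∈ H, h ∈ Dset U) : tau H ≤ c := by
  classical
  rw [le_iff]
  intro U hU
  rw [mem_N1_tau]
  obtain ⟨U1, hU1, -, hi1, hm1⟩ := N1_split c U hU
  obtain ⟨U2, hU2, hs2, hi2, hm2⟩ := N1_split c U1 hU1
  obtain ⟨U3, hU3, hs3, hi3, hm3⟩ := N1_split c U2 hU2
  obtain ⟨F, hF⟩ := nhd_of_le h1 U3 hU3
  refine ⟨F, fun x hx => ?_⟩
  set t : Wr Q := pm x.p x.hp with ht
  have ht3 : t ∈ U3 := by
    apply hF
    apply pm_mem_W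
    intro w hw
    exact (hx.2 w hw).2
  set g : Wr Q := x * t⁻¹ with hg
  have hgp : g.p = 1 := by
    ext w
    simp [hg, ht]
  have hgf : ∀ w, g.f w = x.f w := by
    intro w
    simp [hg, ht]
  obtain ⟨F', hF'⟩ := fin_aux hD x.hf.toFinset g hgp (fun y => by rw [hgf]; exact hx.1 y)
    (fun y hy => by
      rw [hgf]
      by_contra h
      apply hy
      simpa using h) U3 hU3
  obtain ⟨π, hπ, hπF, hπS⟩ := exists_move x.hf.toFinset F F' (by
    rw [Finset.disjoint_left]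
    intro y hy hyF
    have h2 : x.f y ≠ 1 := by simpa using hy
    exact h2 (hx.2 y hyF).1)
  have hk := hF' π hπ hπS
  have hpm : pm π hπ ∈ U3 := hF _ (pm_mem_W hπF)
  have hg1 : g ∈ U1 := by
    have h2 : g = ((pm π hπ)⁻¹ * (pm π hπ * g * (pm π hπ)⁻¹)) * pm π hπ := by group
    rw [h2]
    exact hm2 _ (hm3 _ (hi3 _ hpm) _ hk) _ (hs3 hpm)
  have hx2 : x = g * t := by rw [hg]; group
  rw [hx2]
  exact hm1 _ hg1 _ (hs2 (hs3 ht3))

theorem cover_of_strongMax (hlt : H' < H) (hS : StrongMax H' H) : tau H' ⋖ tau H := by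
  refine ⟨tau_lt_iff.2 hlt, ?_⟩
  intro c hc1 hc2
  have h3 : ¬ c ≤ tau H' := fun h => absurd h (not_le_of_gt hc1)
  have h4 : tau H ≤ c := by
    apply final hc1.le
    have := hS {D | ∃ U ∈ N1 c, D = Dset U}
      (by
        rintro _ ⟨U, hU, rfl⟩
        obtain ⟨V, hV, h5, h6, h7⟩ := Dset_split c U hU
        exact ⟨_, ⟨V, hV, rfl⟩, h5, h6, h7⟩)
      (by
        rintro _ ⟨U, hU, rfl⟩ h hh
        obtain ⟨F, hF⟩ := nhd_of_le hc1.le U hU
        exact ⟨F, fun z hz => hF _ (sg_mem_W hz hh)⟩)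
      (by
        rintro _ ⟨U, hU, rfl⟩
        exact start hc1.le hc2.le h3 U hU)
    intro U hU h hh
    exact this _ ⟨U, hU, rfl⟩ h hh
  exact absurd h4 (not_le_of_gt hc2)

end cover

theorem wr_countable [Countable Q] : Countable (Wr Q) := by
  classical
  let φ : Wr Q → Finset (ℕ × Q) × Finset (ℕ × ℕ) := fun g =>
    (g.hf.toFinset.image (fun y => (y, g.f y)), g.hp.toFinset.image (fun y => (y, g.p y)))
  have hφ : Function.Injective φ := by
    intro a b hab
    have h1 : a.hf.toFinset.image (fun y => (y, a.f y)) = b.hf.toFinset.image (fun y => (y, b.f y)) :=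
      congrArg Prod.fst hab
    have h2 : a.hp.toFinset.image (fun y => (y, a.p y)) = b.hp.toFinset.image (fun y => (y, b.p y)) :=
      congrArg Prod.snd hab
    have key1 : ∀ (a b : Wr Q), a.hf.toFinset.image (fun y => (y, a.f y)) =
        b.hf.toFinset.image (fun y => (y, b.f y)) → ∀ y, a.f y ≠ 1 → b.f y = a.f y := by
      intro a b h y hy
      have h3 : (y, a.f y) ∈ a.hf.toFinset.image (fun y => (y, a.f y)) := by
        rw [Finset.mem_image]; exact ⟨y, by simpa using hy, rfl⟩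
      rw [h, Finset.mem_image] at h3
      obtain ⟨y', _, h4⟩ := h3
      rw [Prod.mk.injEq] at h4
      rw [← h4.2, h4.1]
    have key2 : ∀ (a b : Wr Q), a.hp.toFinset.image (fun y => (y, a.p y)) =
        b.hp.toFinset.image (fun y => (y, b.p y)) → ∀ y, a.p y ≠ y → b.p y = a.p y := by
      intro a b h y hy
      have h3 : (y, a.p y) ∈ a.hp.toFinset.image (fun y => (y, a.p y)) := by
        rw [Finset.mem_image]; exact ⟨y, by simpa using hy, rfl⟩
      rw [h, Finset.mem_image] at h3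
      obtain ⟨y', _, h4⟩ := h3
      rw [Prod.mk.injEq] at h4
      rw [← h4.2, h4.1]
    refine ext' (fun y => ?_) (fun y => ?_)
    · by_cases h3 : a.f y = 1
      · by_cases h4 : b.f y = 1
        · rw [h3, h4]
        · exact key1 b a h1.symm y h4
      · exact (key1 a b h1 y h3).symm
    · by_cases h3 : a.p y = y
      · by_cases h4 : b.p y = y
        · rw [h3, h4]
        · exact key2 b a h2.symm y h4
      · exact (key2 a b h2 y h3).symm
  exact hφ.countable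

theorem wr_infinite : Infinite (Wr Q) := by
  refine Infinite.of_injective (fun n : ℕ => pm (Q := Q) (Equiv.swap 0 (n + 1)) (swap_fin _ _)) ?_
  intro a b h
  have h1 : (pm (Q := Q) (Equiv.swap 0 (a + 1)) (swap_fin _ _)).p 0 =
    (pm (Q := Q) (Equiv.swap 0 (b + 1)) (swap_fin _ _)).p 0 := by
    have h' : (pm (Q := Q) (Equiv.swap 0 (a + 1)) (swap_fin _ _)) =
      (pm (Q := Q) (Equiv.swap 0 (b + 1)) (swap_fin _ _)) := h
    rw [h']
  simpa using h1

end Wr

end Pool.Agent.H48
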