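import Mathlib
import Pool.Agent.H48.Cover

set_option autoImplicit false

namespace Pool.Agent.H48

/-- Two by two matrices of determinant one over the dual numbers of the rationals: the matrix
`(a, b; c, d) + ε (a', b'; c', d')`. -/
@[ext] structure E8 where
  a : ℚ
  b : ℚ
  c : ℚ
  d : ℚ
  a' : ℚ
  b' : ℚ
  c' : ℚ
  d' : ℚ
  det : a * d - b * c = 1
  det' : a * d' + a' * d - b * c' - b' * c = 0

namespace E8

instance : Mul E8 where
  mul x y :=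
    { a := x.a * y.a + x.b * y.c
      b := x.a * y.b + x.b * y.d
      c := x.c * y.a + x.d * y.c
      d := x.c * y.b + x.d * y.d
      a' := x.a * y.a' + x.a' * y.a + x.b * y.c' + x.b' * y.c
      b' := x.a * y.b' + x.a' * y.b + x.b * y.d' + x.b' * y.d
      c' := x.c * y.a' + x.c' * y.a + x.d * y.c' + x.d' * y.c
      d' := x.c * y.b' + x.c' * y.b + x.d * y.d' + x.d' * y.d
      det := by
        have h1 := x.det
        have h2 := y.det
        linear_combination (y.a * y.d - y.b * y.c) * h1 + h2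
      det' := by
        have h1 := x.det
        have h2 := y.det
        have h3 := x.det'
        have h4 := y.det'
        linear_combination (y.a * y.d - y.b * y.c) * h3 + (x.a * x.d - x.b * x.c) * h4 }

instance : One E8 where
  one := ⟨1, 0, 0, 1, 0, 0, 0, 0, by norm_num, by norm_num⟩

instance : Inv E8 where
  inv x := ⟨x.d, -x.b, -x.c, x.a, x.d', -x.b', -x.c', x.a',
    by linear_combination x.det, by linear_combination x.det'⟩

@[simp] theorem mul_a (x y : E8) : (x * y).a = x.a * y.a + x.b * y.c := rfl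
@[simp] theorem mul_b (x y : E8) : (x * y).b = x.a * y.b + x.b * y.d := rfl
@[simp] theorem mul_c (x y : E8) : (x * y).c = x.c * y.a + x.d * y.c := rfl
@[simp] theorem mul_d (x y : E8) : (x * y).d = x.c * y.b + x.d * y.d := rfl
@[simp] theorem mul_a' (x y : E8) :
    (x * y).a' = x.a * y.a' + x.a' * y.a + x.b * y.c' + x.b' * y.c := rfl
@[simp] theorem mul_b' (x y : E8) :
    (x * y).b' = x.a * y.b' + x.a' * y.b + x.b * y.d' + x.b' * y.d := rfl
@[simp] theorem mul_c' (x y : E8) :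
    (x * y).c' = x.c * y.a' + x.c' * y.a + x.d * y.c' + x.d' * y.c := rfl
@[simp] theorem mul_d' (x y : E8) :
    (x * y).d' = x.c * y.b' + x.c' * y.b + x.d * y.d' + x.d' * y.d := rfl
@[simp] theorem one_a : (1 : E8).a = 1 := rfl
@[simp] theorem one_b : (1 : E8).b = 0 := rfl
@[simp] theorem one_c : (1 : E8).c = 0 := rfl
@[simp] theorem one_d : (1 : E8).d = 1 := rfl
@[simp] theorem one_a' : (1 : E8).a' = 0 := rfl
@[simp] theorem one_b' : (1 : E8).b' = 0 := rfl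
@[simp] theorem one_c' : (1 : E8).c' = 0 := rfl
@[simp] theorem one_d' : (1 : E8).d' = 0 := rfl
@[simp] theorem inv_a (x : E8) : (x⁻¹).a = x.d := rfl
@[simp] theorem inv_b (x : E8) : (x⁻¹).b = -x.b := rfl
@[simp] theorem inv_c (x : E8) : (x⁻¹).c = -x.c := rfl
@[simp] theorem inv_d (x : E8) : (x⁻¹).d = x.a := rfl
@[simp] theorem inv_a' (x : E8) : (x⁻¹).a' = x.d' := rfl
@[simp] theorem inv_b' (x : E8) : (x⁻¹).b' = -x.b' := rfl
@[simp] theorem inv_c' (x : E8) : (x⁻¹).c' = -x.c' := rfl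
@[simp] theorem inv_d' (x : E8) : (x⁻¹).d' = x.a' := rfl

instance : Group E8 :=
  Group.ofLeftAxioms
    (by
      intro x y z
      ext <;> simp <;> ring)
    (by
      intro x
      ext <;> simp)
    (by
      intro x
      have h1 := x.det
      have h2 := x.det'
      ext <;> simp
      · linear_combination h1
      · ring
      · ring
      · linear_combination h1
      · linear_combination h2
      · ring
      · ring
      · linear_combination h2)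

instance : Countable E8 := by
  have : Function.Injective (fun x : E8 => (x.a, x.b, x.c, x.d, x.a', x.b', x.c', x.d')) := by
    intro x y h
    simp only [Prod.mk.injEq] at h
    obtain ⟨h1, h2, h3, h4, h5, h6, h7, h8⟩ := h
    exact E8.ext h1 h2 h3 h4 h5 h6 h7 h8
  exact this.countable

/-- Matrices over the rationals. -/
def H1 : Subgroup E8 where
  carrier := {x | x.a' = 0 ∧ x.b' = 0 ∧ x.c' = 0 ∧ x.d' = 0}
  mul_mem' := by
    rintro x y ⟨h1, h2, h3, h4⟩ ⟨k1, k2, k3, k4⟩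
    refine ⟨?_, ?_, ?_, ?_⟩ <;> simp [h1, h2, h3, h4, k1, k2, k3, k4]
  one_mem' := by simp
  inv_mem' := by
    rintro x ⟨h1, h2, h3, h4⟩
    refine ⟨?_, ?_, ?_, ?_⟩ <;> simp [h1, h2, h3, h4]

/-- Upper triangular matrices over the rationals. -/
def H2 : Subgroup E8 where
  carrier := {x | x.a' = 0 ∧ x.b' = 0 ∧ x.c' = 0 ∧ x.d' = 0 ∧ x.c = 0}
  mul_mem' := by
    rintro x y ⟨h1, h2, h3, h4, h5⟩ ⟨k1, k2, k3, k4, k5⟩
    refine ⟨?_, ?_, ?_, ?_, ?_⟩ <;> simp [h1, h2, h3, h4, h5, k1, k2, k3, k4, k5]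
  one_mem' := by simp
  inv_mem' := by
    rintro x ⟨h1, h2, h3, h4, h5⟩
    refine ⟨?_, ?_, ?_, ?_, ?_⟩ <;> simp [h1, h2, h3, h4, h5]

theorem mem_H1 {x : E8} : x ∈ H1 ↔ x.a' = 0 ∧ x.b' = 0 ∧ x.c' = 0 ∧ x.d' = 0 := Iff.rfl
theorem mem_H2 {x : E8} : x ∈ H2 ↔ x.a' = 0 ∧ x.b' = 0 ∧ x.c' = 0 ∧ x.d' = 0 ∧ x.c = 0 := Iff.rfl

theorem ad_of_c {x : E8} (h : x.c = 0) : x.a * x.d = 1 := by
  have := x.det
  rw [h] at this
  linarith

/-- The intermediate subgroups. -/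
def K (n : ℕ) : Subgroup E8 where
  carrier := {x | x.c = 0 ∧ x.c' = 0 ∧ ∃ k : ℤ, x.a' = k * 2 ^ n * x.a}
  mul_mem' := by
    rintro x y ⟨h1, h2, k, hk⟩ ⟨h1', h2', l, hl⟩
    refine ⟨?_, ?_, k + l, ?_⟩
    · simp [h1, h1']
    · simp [h1, h1', h2, h2']
    · simp only [mul_a', mul_a, h1', h2', hk, hl]
      push_cast
      ring
  one_mem' := ⟨rfl, rfl, 0, by simp⟩
  inv_mem' := by
    rintro x ⟨h1, h2, k, hk⟩
    refine ⟨by simp [h1], by simp [h2], -k, ?_⟩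
    have h3 := ad_of_c h1
    have h4 := x.det'
    rw [h1, h2] at h4
    simp only [inv_a', inv_a]
    have h5 : x.a ≠ 0 := by
      rintro h
      rw [h] at h3
      norm_num at h3
    apply mul_left_cancel₀ h5
    push_cast
    rw [hk] at h4
    linear_combination h4

theorem mem_K {n : ℕ} {x : E8} :
    x ∈ K n ↔ x.c = 0 ∧ x.c' = 0 ∧ ∃ k : ℤ, x.a' = k * 2 ^ n * x.a := Iff.rfl

theorem K_anti {m n : ℕ} (h : m ≤ n) : K n ≤ K m := by
  rintro x ⟨h1, h2, k, hk⟩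
  refine ⟨h1, h2, k * 2 ^ (n - m), ?_⟩
  rw [hk]
  have : (2 : ℚ) ^ n = 2 ^ (n - m) * 2 ^ m := by
    rw [← pow_add, Nat.sub_add_cancel h]
  rw [this]
  push_cast
  ring

/-- diagonal elements -/
def dg (t : ℚ) : E8 := ⟨1, 0, 0, 1, t, 0, 0, -t, by norm_num, by ring⟩

theorem dg_mem_K {n : ℕ} {t : ℚ} : dg t ∈ K n ↔ ∃ k : ℤ, t = k * 2 ^ n := by
  rw [mem_K]
  simp [dg]

theorem K_inj {m n : ℕ} (h : K m = K n) : m = n := by
  have key : ∀ m n : ℕ, K m ≤ K n → n ≤ m := by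
    intro m n hmn
    have h1 : dg (2 ^ m) ∈ K m := by
      rw [dg_mem_K]; exact ⟨1, by simp⟩
    have h2 := hmn h1
    rw [dg_mem_K] at h2
    obtain ⟨k, hk⟩ := h2
    have h3 : (2 : ℤ) ^ m = k * 2 ^ n := by exact_mod_cast hk
    have h4 : (2 : ℤ) ^ n ∣ 2 ^ m := ⟨k, by rw [h3]; ring⟩
    have h5 : (2 : ℕ) ^ n ∣ 2 ^ m := by exact_mod_cast h4
    exact (Nat.pow_dvd_pow_iff_le_right (by norm_num)).1 h5
  exact le_antisymm (key _ _ h.ge) (key _ _ h.le)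

theorem H2_lt_H1 : H2 < H1 := by
  rw [lt_iff_le_not_ge]
  refine ⟨fun x hx => ⟨hx.1, hx.2.1, hx.2.2.1, hx.2.2.2.1⟩, fun h => ?_⟩
  have h1 : (⟨0, -1, 1, 0, 0, 0, 0, 0, by norm_num, by norm_num⟩ : E8) ∈ H1 := by
    simp [mem_H1]
  have h2 := h h1
  rw [mem_H2] at h2
  norm_num at h2

theorem H1_lt_top : H1 < ⊤ := by
  rw [lt_top_iff_ne_top]
  intro h
  have h1 : dg 1 ∈ H1 := by rw [h]; trivial
  rw [mem_H1] at h1
  simp [dg] at h1

theorem H2_lt_K (n : ℕ) : H2 < K n := by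
  rw [lt_iff_le_not_ge]
  refine ⟨?_, fun h => ?_⟩
  · rintro x ⟨h1, h2, h3, h4, h5⟩
    exact ⟨h5, h3, 0, by simp [h1]⟩
  · have h1 : (⟨1, 0, 0, 1, 0, 1, 0, 0, by norm_num, by norm_num⟩ : E8) ∈ K n := by
      rw [mem_K]
      exact ⟨rfl, rfl, 0, by simp⟩
    have h2 := h h1
    rw [mem_H2] at h2
    norm_num at h2

theorem K_lt_top (n : ℕ) : K n < ⊤ := by
  rw [lt_top_iff_ne_top]
  intro h
  have h1 : (⟨0, -1, 1, 0, 0, 0, 0, 0, by norm_num, by norm_num⟩ : E8) ∈ K n := by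
    rw [h]; trivial
  rw [mem_K] at h1
  norm_num at h1

section rules
variable {Q : Type} [Group Q]

theorem rule1 {H' : Subgroup Q} {𝒟 : Set (Set Q)}
    (h1 : ∀ D ∈ 𝒟, ∃ D' ∈ 𝒟, D' ⊆ D ∧ (∀ a ∈ D', a⁻¹ ∈ D') ∧ ∀ a ∈ D', ∀ b ∈ D', a * b ∈ D)
    (h2 : ∀ D ∈ 𝒟, ∀ h ∈ H', h ∈ D)
    {X Y : Q → Prop} (hX : ∀ D ∈ 𝒟, ∃ x ∈ D, X x)
    (hXY : ∀ x, X x → ∃ h ∈ H', ∃ h' ∈ H', Y (h * x * h')) :
    ∀ D ∈ 𝒟, ∃ x ∈ D, Y x := by
  intro D hD
  obtain ⟨D1, hD1, hs1, hi1, hm1⟩ := h1 D hD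
  obtain ⟨D2, hD2, hs2, hi2, hm2⟩ := h1 D1 hD1
  obtain ⟨x, hx, hXx⟩ := hX D2 hD2
  obtain ⟨h, hh, h', hh', hY⟩ := hXY x hXx
  refine ⟨h * x * h', hm1 _ (hm2 _ (h2 _ hD2 _ hh) _ hx) _ (h2 _ hD1 _ hh'), hY⟩

theorem rule2 {H' : Subgroup Q} {𝒟 : Set (Set Q)}
    (h1 : ∀ D ∈ 𝒟, ∃ D' ∈ 𝒟, D' ⊆ D ∧ (∀ a ∈ D', a⁻¹ ∈ D') ∧ ∀ a ∈ D', ∀ b ∈ D', a * b ∈ D)
    (h2 : ∀ D ∈ 𝒟, ∀ h ∈ H', h ∈ D)
    {X Y : Q → Prop} (hX : ∀ D ∈ 𝒟, ∃ x ∈ D, X x)
    (hXY : ∀ x, X x → ∃ h ∈ H', Y (h * x * (h⁻¹ * x⁻¹))) :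
    ∀ D ∈ 𝒟, ∃ x ∈ D, Y x := by
  intro D hD
  obtain ⟨D1, hD1, hs1, hi1, hm1⟩ := h1 D hD
  obtain ⟨D2, hD2, hs2, hi2, hm2⟩ := h1 D1 hD1
  obtain ⟨x, hx, hXx⟩ := hX D2 hD2
  obtain ⟨h, hh, hY⟩ := hXY x hXx
  exact ⟨_, hm1 _ (hm2 _ (h2 _ hD2 _ hh) _ hx) _
    (hm2 _ (h2 _ hD2 _ (H'.inv_mem hh)) _ (hi2 _ hx)), hY⟩

theorem concl {H' H : Subgroup Q} {𝒟 : Set (Set Q)}
    (h1 : ∀ D ∈ 𝒟, ∃ D' ∈ 𝒟, D' ⊆ D ∧ (∀ a ∈ D', a⁻¹ ∈ D') ∧ ∀ a ∈ D', ∀ b ∈ D', a * b ∈ D)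
    (h2 : ∀ D ∈ 𝒟, ∀ h ∈ H', h ∈ D) (e : Q)
    (he : ∀ D ∈ 𝒟, ∃ x ∈ D, x = e)
    (hgen : ∀ K : Subgroup Q, H' ≤ K → e ∈ K → H ≤ K) :
    ∀ D ∈ 𝒟, ∀ h ∈ H, h ∈ D := by
  let K : Subgroup Q :=
    { carrier := {x | ∀ D ∈ 𝒟, x ∈ D}
      mul_mem' := by
        intro a b ha hb D hD
        obtain ⟨D1, hD1, hs1, hi1, hm1⟩ := h1 D hD
        exact hm1 _ (ha _ hD1) _ (hb _ hD1)
      one_mem' := fun D hD => h2 D hD 1 H'.one_mem
      inv_mem' := by
        intro a ha D hD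
        obtain ⟨D1, hD1, hs1, hi1, hm1⟩ := h1 D hD
        exact hs1 (hi1 _ (ha _ hD1)) }
  have hK : H ≤ K := by
    apply hgen
    · intro h hh D hD
      exact h2 D hD h hh
    · intro D hD
      obtain ⟨x, hx, rfl⟩ := he D hD
      exact hx
  intro D hD h hh
  exact hK hh D hD

end rules

/-- upper unipotent -/
def u (t : ℚ) : E8 := ⟨1, t, 0, 1, 0, 0, 0, 0, by norm_num, by norm_num⟩
/-- lower unipotent -/
def v (t : ℚ) : E8 := ⟨1, 0, t, 1, 0, 0, 0, 0, by norm_num, by norm_num⟩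
/-- Weyl element -/
def w : E8 := ⟨0, -1, 1, 0, 0, 0, 0, 0, by norm_num, by norm_num⟩
/-- infinitesimal upper unipotent -/
def e (t : ℚ) : E8 := ⟨1, 0, 0, 1, 0, t, 0, 0, by norm_num, by norm_num⟩
/-- infinitesimal lower unipotent -/
def f (t : ℚ) : E8 := ⟨1, 0, 0, 1, 0, 0, t, 0, by norm_num, by norm_num⟩

theorem u_mem_H2 (t : ℚ) : u t ∈ H2 := by simp [mem_H2, u]
theorem u_mem (t : ℚ) : u t ∈ H1 := by simp [mem_H1, u]
theorem v_mem (t : ℚ) : v t ∈ H1 := by simp [mem_H1, v]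
theorem w_mem : w ∈ H1 := by simp [mem_H1, w]

/-- the rational part -/
def g0 (x : E8) : E8 := ⟨x.a, x.b, x.c, x.d, 0, 0, 0, 0, x.det, by ring⟩
theorem g0_mem (x : E8) : g0 x ∈ H1 := by simp [mem_H1, g0]

theorem strongMax_H1 : Wr.StrongMax H1 ⊤ := by
  intro 𝒟 h1 h2 h3
  -- step 0
  have s0 : ∀ D ∈ 𝒟, ∃ x ∈ D, x ∉ H1 := by
    intro D hD
    obtain ⟨s, -, hs, hs'⟩ := h3 D hD
    by_contra hcon
    push Not at hcon
    apply hs
    have hu : s * u 1 * s⁻¹ ∈ H1 := by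
      have h4 := hcon _ (hs' _ (u_mem 1))
      have h5 := H1.mul_mem h4 (u_mem 1)
      simpa using h5
    have hv : s * v 1 * s⁻¹ ∈ H1 := by
      have h4 := hcon _ (hs' _ (v_mem 1))
      have h5 := H1.mul_mem h4 (v_mem 1)
      simpa using h5
    rw [mem_H1] at hu hv ⊢
    obtain ⟨u1, u2, u3, u4⟩ := hu
    obtain ⟨v1, v2, v3, v4⟩ := hv
    simp [u] at u1 u2 u3 u4
    simp [v] at v1 v2 v3 v4
    have hdet := s.det
    have hdet' := s.det'
    have e1 : s.a * s.a' = 0 := by linear_combination (1/2) * u2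
    have e2 : s.c * s.c' = 0 := by linear_combination (-1/2) * u3
    have e3 : s.a * s.c' + s.a' * s.c = 0 := by linear_combination u4 - hdet'
    have e4 : s.b * s.b' = 0 := by linear_combination (-1/2) * v2
    have e5 : s.d * s.d' = 0 := by linear_combination (1/2) * v3
    have e6 : s.b * s.d' + s.b' * s.d = 0 := by linear_combination v1 - hdet'
    have f1 : s.a' = 0 ∧ s.c' = 0 := by
      by_cases ha : s.a = 0
      · have hc : s.c ≠ 0 := by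
          intro hc; rw [ha, hc] at hdet; norm_num at hdet
        have hc' : s.c' = 0 := by simpa [hc] using e2
        rw [hc', mul_zero, zero_add] at e3
        refine ⟨by simpa [hc] using e3, hc'⟩
      · have ha' : s.a' = 0 := by simpa [ha] using e1
        rw [ha', zero_mul, add_zero] at e3
        exact ⟨ha', by simpa [ha] using e3⟩
    have f2 : s.b' = 0 ∧ s.d' = 0 := by
      by_cases hb : s.b = 0
      · have hd : s.d ≠ 0 := by
          intro hd; rw [hb, hd] at hdet; norm_num at hdet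
        have hd' : s.d' = 0 := by simpa [hd] using e5
        rw [hd', mul_zero, zero_add] at e6
        refine ⟨by simpa [hd] using e6, hd'⟩
      · have hb' : s.b' = 0 := by simpa [hb] using e4
        rw [hb', zero_mul, add_zero] at e6
        exact ⟨hb', by simpa [hb] using e6⟩
    exact ⟨f1.1, f2.1, f1.2, f2.2⟩
  -- step 1
  have s1 : ∀ D ∈ 𝒟, ∃ x ∈ D, (x.a = 1 ∧ x.b = 0 ∧ x.c = 0 ∧ x.d = 1) ∧ x ∉ H1 := by
    refine rule1 h1 h2 s0 ?_
    intro x hx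
    refine ⟨(g0 x)⁻¹, H1.inv_mem (g0_mem x), 1, H1.one_mem, ?_, ?_⟩
    · have := x.det
      refine ⟨?_, ?_, ?_, ?_⟩ <;> simp [g0]
      · linear_combination this
      · ring
      · ring
      · linear_combination this
    · rw [mul_one]
      intro h
      apply hx
      have := H1.mul_mem (g0_mem x) h
      simpa using this
  -- step 2
  have s2 : ∀ D ∈ 𝒟, ∃ x ∈ D, (x.a = 1 ∧ x.b = 0 ∧ x.c = 0 ∧ x.d = 1) ∧ x.c' ≠ 0 := by
    refine rule1 h1 h2 s1 ?_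
    rintro x ⟨⟨ha, hb, hc, hd⟩, hx⟩
    have hdet' := x.det'
    rw [ha, hb, hc, hd] at hdet'
    have hd' : x.d' = - x.a' := by linear_combination hdet'
    by_cases h4 : x.c' = 0
    · by_cases h5 : x.b' = 0
      · have h6 : x.a' ≠ 0 := by
          intro h6
          apply hx
          rw [mem_H1]
          exact ⟨h6, h5, h4, by rw [hd', h6]; norm_num⟩
        refine ⟨v 1, v_mem 1, (v 1)⁻¹, H1.inv_mem (v_mem 1), ?_, ?_⟩
        · simp [v, ha, hb, hc, hd]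
        · simp [v, ha, hb, hc, hd, h4, h5, hd']
          intro h7
          apply h6
          linear_combination h7
      · refine ⟨w, w_mem, w⁻¹, H1.inv_mem w_mem, ?_, ?_⟩
        · simp [w, ha, hb, hc, hd]
        · simp [w, ha, hb, hc, hd, h4]
          exact h5
    · refine ⟨1, H1.one_mem, 1, H1.one_mem, ?_, ?_⟩
      · simp [ha, hb, hc, hd]
      · simp [h4]
  -- step 3
  have s3 : ∀ D ∈ 𝒟, ∃ x ∈ D, (x.a = 1 ∧ x.b = 0 ∧ x.c = 0 ∧ x.d = 1) ∧ x.c' = 0 ∧ x.a' ≠ 0 := by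
    refine rule2 h1 h2 s2 ?_
    rintro x ⟨⟨ha, hb, hc, hd⟩, hx⟩
    have hdet' := x.det'
    rw [ha, hb, hc, hd] at hdet'
    have hd' : x.d' = - x.a' := by linear_combination hdet'
    refine ⟨u 1, u_mem 1, ?_, ?_, ?_⟩
    · simp [u, ha, hb, hc, hd]
    · simp [u, ha, hb, hc, hd]
    · simp [u, ha, hb, hc, hd, hd']
      intro h7
      apply hx
      linear_combination h7
  -- step 4
  have s4 : ∀ D ∈ 𝒟, ∃ x ∈ D, x = e 1 := by
    refine rule2 h1 h2 s3 ?_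
    rintro x ⟨⟨ha, hb, hc, hd⟩, hc', hx⟩
    have hdet' := x.det'
    rw [ha, hb, hc, hd] at hdet'
    have hd' : x.d' = - x.a' := by linear_combination hdet'
    refine ⟨u (-1 / (2 * x.a')), u_mem _, ?_⟩
    ext <;> simp [u, e, ha, hb, hc, hd, hc', hd']
    field_simp
    ring
  refine concl h1 h2 (e 1) s4 ?_
  -- generation
  intro K hK he
  have k1 : f (-1) ∈ K := by
    have h4 : f (-1) = w * e 1 * w⁻¹ := by
      ext <;> simp [w, e, f]
    rw [h4]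
    exact K.mul_mem (K.mul_mem (hK w_mem) he) (K.inv_mem (hK w_mem))
  have k2 : ∀ t, e t ∈ K := by
    intro t
    have h4 : e t = u 1 * (u (t / 2) * f (-1) * ((u (t / 2))⁻¹ * (f (-1))⁻¹)) *
        ((u 1)⁻¹ * (u (t / 2) * f (-1) * ((u (t / 2))⁻¹ * (f (-1))⁻¹))⁻¹) := by
      ext <;> simp [u, e, f] <;> ring
    have h5 : u (t / 2) * f (-1) * ((u (t / 2))⁻¹ * (f (-1))⁻¹) ∈ K :=
      K.mul_mem (K.mul_mem (hK (u_mem _)) k1) (K.mul_mem (K.inv_mem (hK (u_mem _))) (K.inv_mem k1))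
    rw [h4]
    exact K.mul_mem (K.mul_mem (hK (u_mem _)) h5)
      (K.mul_mem (K.inv_mem (hK (u_mem _))) (K.inv_mem h5))
  have k3 : ∀ t, f t ∈ K := by
    intro t
    have h4 : f t = w * e (-t) * w⁻¹ := by
      ext <;> simp [w, e, f]
    rw [h4]
    exact K.mul_mem (K.mul_mem (hK w_mem) (k2 _)) (K.inv_mem (hK w_mem))
  have k4 : ∀ t, dg t ∈ K := by
    intro t
    have h4 : dg t = u t * f 1 * ((u t)⁻¹ * (f 1)⁻¹) * e (t ^ 2) := by
      ext <;> simp [u, e, f, dg] <;> ring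
    rw [h4]
    exact K.mul_mem (K.mul_mem (K.mul_mem (hK (u_mem _)) (k3 _))
      (K.mul_mem (K.inv_mem (hK (u_mem _))) (K.inv_mem (k3 _)))) (k2 _)
  intro x _
  have h4 : x = g0 x * (dg (x.d * x.a' - x.b * x.c') * (e (x.d * x.b' - x.b * x.d') *
      f (x.a * x.c' - x.c * x.a'))) := by
    have h5 := x.det
    have h6 := x.det'
    ext
    · simp [g0, dg, e, f]
    · simp [g0, dg, e, f]
    · simp [g0, dg, e, f]
    · simp [g0, dg, e, f]
    · simp [g0, dg, e, f]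
      linear_combination (-x.a') * h5
    · simp [g0, dg, e, f]
      linear_combination (-x.b') * h5 + x.b * h6
    · simp [g0, dg, e, f]
      linear_combination (-x.c') * h5
    · simp [g0, dg, e, f]
      linear_combination (-x.d') * h5 + x.d * h6
  rw [h4]
  exact K.mul_mem (hK (g0_mem x)) (K.mul_mem (k4 _) (K.mul_mem (k2 _) (k3 _)))

theorem strongMax_H2 : Wr.StrongMax H2 H1 := by
  intro 𝒟 h1 h2 h3
  have s0 : ∀ D ∈ 𝒟, ∃ x ∈ D, x ∈ H1 ∧ x.c ≠ 0 := by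
    intro D hD
    obtain ⟨s, hs1, hs, hs'⟩ := h3 D hD
    refine ⟨_, hs' _ (u_mem_H2 1), ?_, ?_⟩
    · exact H1.mul_mem (H1.mul_mem (H1.mul_mem hs1 (u_mem 1)) (H1.inv_mem hs1))
        (H1.inv_mem (u_mem 1))
    · have hc : s.c ≠ 0 := by
        intro hc
        exact hs ⟨hs1.1, hs1.2.1, hs1.2.2.1, hs1.2.2.2, hc⟩
      have h4 : (s * u 1 * s⁻¹ * (u 1)⁻¹).c = - s.c ^ 2 := by
        simp [u]
        ring
      rw [h4]
      exact neg_ne_zero.2 (pow_ne_zero 2 hc)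
  have s1 : ∀ D ∈ 𝒟, ∃ x ∈ D, x = w := by
    refine rule1 h1 h2 s0 ?_
    rintro x ⟨⟨ha', hb', hc', hd'⟩, hc⟩
    refine ⟨u (-x.a / x.c), u_mem_H2 _,
      ⟨1 / x.c, -x.d, 0, x.c, 0, 0, 0, 0, by field_simp; ring, by norm_num⟩, by simp [mem_H2], ?_⟩
    have hdet := x.det
    ext <;> simp [u, w, ha', hb', hc', hd', hc]
    · field_simp
      linear_combination (-1) * hdet
    · ring
  refine concl h1 h2 w s1 ?_
  intro K hK hw x hx
  by_cases hc : x.c = 0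
  · exact hK ⟨hx.1, hx.2.1, hx.2.2.1, hx.2.2.2, hc⟩
  · obtain ⟨ha', hb', hc', hd'⟩ := hx
    let y : E8 := ⟨x.c, x.d, 0, 1 / x.c, 0, 0, 0, 0, by field_simp; ring, by norm_num⟩
    have hy : y ∈ H2 := by simp [mem_H2, y]
    have h4 : x = u (x.a / x.c) * w * y := by
      have hdet := x.det
      ext <;> simp [u, w, y, ha', hb', hc', hd', hc]
      field_simp
      linear_combination (-1) * hdet
    rw [h4]
    exact K.mul_mem (K.mul_mem (hK (u_mem_H2 _)) hw) (hK hy)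

end E8

end Pool.Agent.H48
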